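import Pool.Agent.Lib.MP_12eaff_co.Frz.F.Ifc3

set_option autoImplicit false
set_option linter.unusedSectionVars false

namespace Pool.Agent.Lib.MP_12eaff_co.Frz.Acc2

open Finset Pool.Agent.Lib.MP_12eaff_co.Frz.BK
open scoped Classical

variable {V : Type} [Fintype V] {G : SimpleGraph V} {D : ℕ}

/-- No port ticket. -/
def Tr.NoTix (T : Tr G D) : Prop := ∀ z ∈ T.R, ∀ v ∈ T.R, ∀ κ < D, ¬ T.Port z v κ

/-- The account without tickets: a unique port costs one, a passage child gives `B`, a late vertex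
with a virtual event gives two. -/
def UThm4 (D B : ℕ) : Prop :=
  ∀ (V : Type) [Fintype V] (G : SimpleGraph V) (U P : Finset V), MC G D →
    (∀ v, v ∈ U ↔ ∃ K, IsClq G K ∧ K.card = D ∧ v ∈ K) →
    ∃ (ι : Type) (mb : ι → PV V → Prop) (cl : PV V → ι)
      (E : PV V × PV V × (PV V → ℕ) → ℕ → PV V × PV V × (PV V → ℕ) → ℕ → PV V → Prop)
      (pf : PV V → PV V → ℕ), (∀ u, mb (cl u) u) ∧
      ∀ (T : Tr (PG G U P) D) (q : ι → PV V), IsB T → T.Dm = PD U P → T.S2 = ∅ →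
        Own T mb cl q (T.El E) pf → T.NoTix →
          B * ∑ e ∈ T.R, (T.CX e).card + 2 * ((T.Late mb cl q (T.El E)).filter T.Vev).card <
            ∑ v ∈ T.R, (T.Dr v ∩ T.Dm).card

/-- The same without ownership. -/
def UThm5 (D B : ℕ) : Prop :=
  ∀ (V : Type) [Fintype V] (G : SimpleGraph V) (U P : Finset V), MC G D →
    (∀ v, v ∈ U ↔ ∃ K, IsClq G K ∧ K.card = D ∧ v ∈ K) →
    ∃ pf : PV V → PV V → ℕ, ∀ T : Tr (PG G U P) D, IsA T → T.Dm = PD U P → T.S2 = ∅ →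
      (∀ x ∈ T.R, ∀ v ∈ T.R, Pr T v x → T.d v + 1 = T.d x → pf (T.p x) x ≤ pf v x) → T.NoTix →
        B * ∑ e ∈ T.R, (T.CX e).card < ∑ v ∈ T.R, (T.Dr v ∩ T.Dm).card

theorem UThm5.uthm4 {B : ℕ} (u : UThm5 D B) : UThm4 D B := fun V _ G U P h hU => by
  obtain ⟨pf, k⟩ := u V G U P h hU
  refine ⟨PV V, fun i x => x = i, id, fun _ _ _ _ _ => True, pf, fun _ => rfl,
    fun T q a b c o n => ?_⟩
  have e : T.Late (fun i x => x = i) id q (T.El fun _ _ _ _ _ => True) = ∅ :=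
    eq_empty_of_forall_notMem fun e j => by
      obtain ⟨_, _, _, _, _, _, _, t⟩ := mem_filter.1 j
      exact t trivial
  rw [e, filter_empty, card_empty]
  exact k T ⟨a, fun v hv x md p1 p2 p3 => (o.reach v hv x md ⟨p1, p2, p3⟩).2.2.2 trivial⟩ b c
    (fun x hx v hv p l => o.fifo x hx v hv p l (.inr trivial)) n

end Pool.Agent.Lib.MP_12eaff_co.Frz.Acc2
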