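import Pool.Agent.Lib.MP_12eaff_co.Frz.G.St
import Pool.Agent.Lib.MP_12eaff_co.Frz.G.M3
import Pool.Agent.Lib.MP_12eaff_co.Frz.Acc2.ZG
import Pool.Agent.Lib.MP_12eaff_co.Frz.S8b

set_option autoImplicit false
set_option linter.unusedSectionVars false

namespace Pool.Agent.Lib.MP_12eaff_co.Frz.Acc2

open Finset Pool.Agent.Lib.MP_12eaff_co.Frz.BK
open scoped Classical

variable {V : Type} [Fintype V] {G : SimpleGraph V} {D : ℕ}

/-- Eleven members of every largest clique without cross edges. -/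
def Sel11 (D : ℕ) : Prop := ∀ (V : Type) [Fintype V] (G : SimpleGraph V), MC G D → ∃ F : Finset V,
  (∀ K, IsClq G K → K.card = D → 11 ≤ (K ∩ F).card) ∧
  ∀ K K', IsClq G K → K.card = D → IsClq G K' → K'.card = D → K ≠ K' →
    ∀ a ∈ K ∩ F, ∀ b ∈ K' ∩ F, ¬ G.Adj a b

/-- A hole that is not parked does not change validity. -/
theorem vz_hole {F W K : Finset V} {g : V → ℕ} {r : V}
    (h : (frK G F (insert r W) K).Vz D g) : (frK G F W K).Vz D (Function.update g r D) := by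
  have k : ∀ w z y, y < D → z ∈ (frK G F W K).sl w → Function.update g r D z = y →
      z ∈ (frK G F (insert r W) K).sl w ∧ g z = y := fun w z y l p q => by
    have n : z ≠ r := fun e => by rw [e, Function.update_self] at q; omega
    rw [Function.update_of_ne n] at q
    exact ⟨mem_sdiff.2 ⟨(mem_sdiff.1 p).1, fun e =>
      (mem_insert.1 e).elim n (mem_sdiff.1 p).2⟩, q⟩
  have s : ∀ w y, y < D → (frK G F W K).See (Function.update g r D) w y →
      (frK G F (insert r W) K).See g w y := fun w y l ⟨z, p, q⟩ => ⟨z, k w z y l p q⟩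
  refine ⟨fun y l => (h.nA y l).trans (card_le_card fun w p => ?_),
    fun y l z l' n => (h.nB y l z l' n).trans (card_le_card fun w p => ?_),
    fun y l => (h.mo y l).trans (card_le_card fun w p => ?_)⟩
  · exact Fr.mem_Na.2 ⟨(Fr.mem_Na.1 p).1, fun t => (Fr.mem_Na.1 p).2 (s w y l t)⟩
  · exact Fr.mem_Nb.2 ⟨(Fr.mem_Nb.1 p).1, fun t => (Fr.mem_Nb.1 p).2 ⟨s w y l t.1, s w z l' t.2⟩⟩
  · exact Fr.mem_Nm.2 ⟨(Fr.mem_Nm.1 p).1, fun ⟨a, a1, b, b1, n, a2, b2⟩ => (Fr.mem_Nm.1 p).2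
      ⟨a, (k w a y l a1 a2).1, b, (k w b y l b1 b2).1, n, (k w a y l a1 a2).2,
        (k w b y l b1 b2).2⟩⟩

theorem base_z (h : MC G D) (hD : 8 ≤ D) (sel : Sel11 D) : ∃ (C : Cz G D) (s0 : C.St),
    C.Root s0 ∧ ∀ v, v ∈ C.U ↔ ∃ K, IsClq G K ∧ K.card = D ∧ v ∈ K := by
  obtain ⟨F, f1, f2⟩ := sel V G h
  obtain ⟨𝒦, mK⟩ : ∃ 𝒦 : Finset (Finset V), ∀ K, K ∈ 𝒦 ↔ IsClq G K ∧ K.card = D :=
    ⟨univ.filter fun K => IsClq G K ∧ K.card = D, by simp⟩
  obtain ⟨U, mU⟩ : ∃ U : Finset V, ∀ v, v ∈ U ↔ ∃ K ∈ 𝒦, v ∈ K := ⟨𝒦.biUnion id, by simp⟩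
  have dj : ∀ K ∈ 𝒦, ∀ K' ∈ 𝒦, ∀ v ∈ K, v ∈ K' → K = K' := fun K k K' k' v p q =>
    dj8 h hD ((mK K).1 k).1 ((mK K).1 k).2 ((mK K').1 k').1 ((mK K').1 k').2 p q
  have ex : ∀ v, ∃ K : Finset V, v ∈ U → K ∈ 𝒦 ∧ v ∈ K := fun v => by
    by_cases k : v ∈ U
    exacts [((mU v).1 k).imp fun K p _ => p, ⟨∅, fun p => absurd p k⟩]
  choose cq hq using ex
  let Ok : Finset V → (V → ℕ) → Prop := fun P g => (∀ a, a ∉ U ∪ P → g a < D) ∧
    (∀ a b, a ∉ U ∪ P → b ∉ U ∪ P → G.Adj a b → g a ≠ g b) ∧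
    ∀ K ∈ 𝒦, (frK G F (U ∪ P) K).Vz D g
  obtain ⟨P0, p0, mn⟩ := exists_min_image (univ.filter fun P => ∃ g, Ok P g) card
    ⟨univ, mem_filter.2 ⟨mem_univ _, fun _ => 0, by simp, by simp, fun K k => by
      have c : 11 ≤ (frK G F (U ∪ univ) K).F.card := f1 K ((mK K).1 k).1 ((mK K).1 k).2
      have n : ∀ y, 2 ≤ ((frK G F (U ∪ univ) K).Na (fun _ => 0) y).card := fun y => by
        rw [Fr.Na, filter_true_of_mem fun w _ ⟨z, p, _⟩ => by simp [frK] at p]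
        omega
      exact ⟨fun y _ => one_le_two.trans (n y),
        fun y _ z _ _ => (n y).trans (card_le_card (Fr.Na_Nb _ _)),
        fun y _ => (n y).trans (card_le_card (Fr.Na_Nm _))⟩⟩⟩
  obtain ⟨g, g1, g2, g3⟩ := (mem_filter.1 p0).2
  have less : ∀ r ∈ P0, ∀ g, ¬ Ok (P0.erase r) g := fun r p g k => by
    have := mn _ (mem_filter.2 ⟨mem_univ _, g, k⟩)
    have := card_erase_add_one p
    omega
  obtain ⟨r, hr⟩ : P0.Nonempty := by
    rw [nonempty_iff_ne_empty]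
    rintro rfl
    simp only [union_empty] at g1 g2 g3
    have e : ∀ K : Finset V, K \ Fᶜ = K ∩ F := fun K => by ext v; simp
    refine h.ncol (zg_colr (Z := Fᶜ) h.deg mU dj (fun K => (mK K).1) (fun K k u p v q n a => ?_)
      (fun K k => ?_) g1 g2 (fun K k y l => ?_) fun K k y l z l' n => ?_)
    · by_contra! c
      obtain ⟨K', k', q'⟩ := (mU v).1 q
      exact f2 K K' ((mK K).1 k).1 ((mK K).1 k).2 ((mK K').1 k').1 ((mK K').1 k').2
        (fun t => n (t ▸ q')) u (mem_inter.2 ⟨p, by simpa using c.1⟩) v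
        (mem_inter.2 ⟨q', by simpa using c.2⟩) a
    · have := f1 K ((mK K).1 k).1 ((mK K).1 k).2
      rw [e]; omega
    · obtain ⟨w, p⟩ := card_pos.1 ((g3 K k).nA y l)
      obtain ⟨p, q⟩ := Fr.mem_Na.1 p
      exact ⟨w, e K ▸ p, fun m a b t => q ⟨m, mem_sdiff.2 ⟨mem_nb.2 b, a⟩, t⟩⟩
    · rw [e]
      refine (Nat.add_le_add (card_le_card fun w p => ?_) ((g3 K k).nB y l z l' n)).trans
        (card_filter_add_card_filter_not (s := K ∩ F) fun w =>
          (frK G F U K).See g w y ∧ (frK G F U K).See g w z).le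
      obtain ⟨p1, ⟨a, a1, a2, a3⟩, b, b1, b2, b3⟩ := mem_filter.1 p
      exact mem_filter.2 ⟨p1, ⟨a, mem_sdiff.2 ⟨mem_nb.2 a2, a1⟩, a3⟩,
        b, mem_sdiff.2 ⟨mem_nb.2 b2, b1⟩, b3⟩
  have rU : r ∉ U := fun k => less r hr g (by
    have : U ∪ P0.erase r = U ∪ P0 := by
      ext v; by_cases e : v = r <;> simp [e, k]
    simp only [Ok, this]
    exact ⟨g1, g2, g3⟩)
  have e : U ∪ P0 = insert r (U ∪ P0.erase r) := by
    ext v; by_cases e : v = r <;> simp [e, hr]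
  rw [e] at g1 g2 g3
  have rr : r ∉ U ∪ P0.erase r := by simp [rU]
  have fu : ∀ m, m ∉ U ∪ P0.erase r → m ≠ r → Function.update g r D m < D := fun m p n => by
    rw [Function.update_of_ne n]
    exact g1 m fun t => (mem_insert.1 t).elim n p
  have o1 : OneH G D (U ∪ P0.erase r) r (Function.update g r D) :=
    ⟨rr, Function.update_self .., fun a b p q t => by
      have h1 := fu a p
      have h2 := fu b q
      have h3 := fun x y => g2 a b (fun t => (mem_insert.1 t).elim x p)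
        (fun t => (mem_insert.1 t).elim y q) t
      have := t.ne
      simp only [Function.update_apply] at h1 h2 ⊢
      split_ifs at h1 h2 ⊢ <;> grind, fu⟩
  have ex : ∃ n, ∃ z f, OneH G D (U ∪ P0.erase r) z f ∧
      (∀ K ∈ 𝒦, (frK G F (U ∪ P0.erase r) K).Vz D f) ∧
      ∑ K ∈ 𝒦, (frK G F (U ∪ P0.erase r) K).lev D f = n :=
    ⟨_, r, _, o1, fun K k => vz_hole (g3 K k), rfl⟩
  obtain ⟨z, f, o, v, sm⟩ := Nat.find_spec ex
  have ok : ∀ K ∈ 𝒦, (frK G F (U ∪ P0.erase r) K).OKz := fun K k =>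
    ⟨f1 K ((mK K).1 k).1 ((mK K).1 k).2, fun w p =>
      (card_le_card (sdiff_subset_sdiff Subset.rfl fun v e =>
        mem_union_left _ ((mU v).2 ⟨K, k, e⟩))).trans
        (out_le h.deg ((mK K).1 k).1 ((mK K).1 k).2 (mem_inter.1 p).1),
      fun w p w' p' z a b => rs8 h hD ((mK K).1 k).1 ((mK K).1 k).2
        (fun t => (mem_sdiff.1 a).2 (mem_union_left _ ((mU z).2 ⟨K, k, t⟩)))
        (mem_inter.1 p).1 (mem_inter.1 p').1 (mem_nb.1 (mem_sdiff.1 a).1).symm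
        (mem_nb.1 (mem_sdiff.1 b).1).symm⟩
  have rt : ∀ K, ∃ (c : Sd V) (d : Dd V), K ∈ 𝒦 → c.l = (frK G F (U ∪ P0.erase r) K).lev D f ∧
      (frK G F (U ∪ P0.erase r) K).Wz D c d f ∧ (frK G F (U ∪ P0.erase r) K).Rz c d := fun K => by
    by_cases k : K ∈ 𝒦
    · obtain ⟨c, d, p⟩ := Fr.root_z (ok K k) (v K k)
      exact ⟨c, d, fun _ => p⟩
    · exact ⟨⟨0, 0, 0, fun _ => 0, ∅⟩, ⟨∅, r, r, ∅⟩, fun p => absurd p k⟩
  choose sd dat hd using rt
  let C : Cz G D :=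
    { U := U, P := P0.erase r, F := F, 𝒦 := 𝒦, cq := cq, sd := sd, d0 := dat, hU := hq
      sub := fun K k v p => ⟨(mU v).2 ⟨K, k, p⟩,
        dj _ (hq v ((mU v).2 ⟨K, k, p⟩)).1 K k v (hq v ((mU v).2 ⟨K, k, p⟩)).2 p⟩
      ok := ok
      rz := fun K k => (hd K k).2.2
      min := fun g a b c => less r hr g ⟨a, b, c⟩
      min2 := fun z g a b => by
        rw [sum_congr rfl fun K k => (hd K k).1, sm]
        exact Nat.find_min' ex ⟨z, g, a, b, rfl⟩ }
  refine ⟨C, { z := z, q := z, f := f, dat := dat, one := o, rpar := o.real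
               par_ne := fun u p _ n => ?_, inv := fun K k => (hd K k).2.1
               p5 := fun K k w t _ => ?_ }, ⟨rfl, fun K k => rfl⟩, fun v => ?_⟩
  · have := o.full u p n
    have := o.hole
    omega
  · exact o.hole.symm ▸ ((hd K k).2.1.pin_lt t).ne
  · show v ∈ U ↔ _
    simp only [mU, mK, and_assoc]

end Pool.Agent.Lib.MP_12eaff_co.Frz.Acc2
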