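import Pool.Agent.Lib.MP_12eaff_co.Frz.G.St
import Pool.Agent.Lib.MP_12eaff_co.Frz.G.Ifc

set_option autoImplicit false
set_option linter.unusedSectionVars false

namespace Pool.Agent.Lib.MP_12eaff_co.Frz.Acc2

open Finset Pool.Agent.Lib.MP_12eaff_co.Frz.BK PV Tr
open scoped Classical

variable {V : Type} [Fintype V] {G : SimpleGraph V} {D : ℕ}

namespace Cz

variable {C : Cz G D}

/-- The tree with its states; `L` are the late vertices. -/
structure Tw (C : Cz G D) (T : Tr (PG G C.U C.P) D) (st : PV V → C.St)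
    (L : Finset (PV V)) : Prop where
  a : IsB T
  dm : T.Dm = PD C.U C.P
  s2 : T.S2 = ∅
  r : C.Root (st T.r)
  z : ∀ v ∈ T.R, v = inl (st v).z ∧ T.p v = inl (st v).q ∧ T.col v = C.rules.col (st v)
  nx : ∀ v ∈ T.R, v ≠ T.r → (st v).dat = (st (T.p v)).dat ∨
    v ∉ T.O (T.p v) ∧ ∃ K w, (st (T.p v)).Pass v.fst (st v) K w
  px : ∀ v ∈ T.R, v ≠ T.r → v ∉ T.O (T.p v) → ∃ K w, (st (T.p v)).Pass v.fst (st v) K w
  clo : ∀ v ∈ T.R, ∀ e t K w, (st v).Pass e t K w → inl e ∈ T.R ∨ inl e ∈ L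
  late : ∀ e ∈ L, e ∉ T.R

theorem exists_tw (hd : ∀ v, (nb G v).card ≤ D + 1) (s0 : C.St) (h0 : C.Root s0) {ι : Type}
    (mb : ι → PV V → Prop) (cl : PV V → ι) (hcl : ∀ u, mb (cl u) u)
    (E : PV V × PV V × (PV V → ℕ) → ℕ → PV V × PV V × (PV V → ℕ) → ℕ → PV V → Prop)
    (pf : PV V → PV V → ℕ) : ∃ T st q, Tw C T st (T.Late mb cl q (T.El E)) ∧
      Own T mb cl q (T.El E) pf := by
  obtain ⟨T, st, q, a, b, c, _, e, f, g, k, l⟩ := C.rules.exists_tr hd C.rel mb cl hcl E pf s0 h0.1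
  have key : ∀ v ∈ T.R, v ≠ T.r → (st v).dat = (st (T.p v)).dat ∧ v ∈ T.O (T.p v) ∨
      v ∉ T.O (T.p v) ∧ ∃ K w, (st (T.p v)).Pass v.fst (st v) K w := fun v hv hr => by
    obtain ⟨a, rfl, _⟩ := PD_real (b ▸ T.real v hv)
    obtain ⟨k1, k2 | k2⟩ := k a hv hr
    · exact .inl ⟨congrArg St.dat (k1.trans (St.nx_arc k2.1)) |>.trans rfl, k2.2⟩
    · have j : T.d (inl a) = T.d (T.p (inl a)) + 3 := k2.2
      refine .inr ⟨fun o => ?_, k1 ▸ St.nx_pass (mem_filter.1 k2.1).2⟩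
      have := (T.clo _ (T.p_mem _ hv hr) _ o).2
      omega
  refine ⟨T, st, q, ⟨a, b, c, e ▸ h0, g, fun v hv hr => (key v hv hr).imp_left And.left,
    fun v hv hr n => ((key v hv hr).resolve_left fun j => n j.2).2, fun v hv e t K w p => ?_,
    fun e k => (mem_filter.1 k).2.2.1⟩, f⟩
  obtain ⟨l1, l2, _, l3⟩ := l v hv e (mem_filter.2 ⟨mem_univ _, t, K, w, p⟩)
  refine or_iff_not_imp_left.2 fun n => mem_filter.2 ⟨mem_univ _, fun j => ?_, n, l1, l2, v, hv,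
    fun j => n (l3 j).1⟩
  exact (C.mem_sl.1 p.he).2 (PD_l.1 (b ▸ j))

variable (T : Tr (PG G C.U C.P) D) (st : PV V → C.St) (L : Finset (PV V))

/-- Clique and member of a passage. -/
noncomputable def kx (x : PV V) : Finset V × V :=
  if k : ∃ K w, (st (T.p x)).Pass x.fst (st x) K w then (k.choose, k.choose_spec.choose)
  else (∅, x.fst)

/-- Passage children. -/
noncomputable def PC : Finset (PV V) := T.R.filter fun x => x ≠ T.r ∧ x ∉ T.O (T.p x)

noncomputable def PX (K : Finset V) : Finset (PV V) := (PC T).filter fun x => (kx T st x).1 = K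

/-- Entries. -/
noncomputable def DD : Finset (V × V) := univ.filter fun p =>
  p.2 ∈ C.U ∧ inl p.1 ∈ T.R ∧ (st (inl p.1)).Ent (C.cq p.2) p.2

/-- Late exits. -/
noncomputable def LL (K : Finset V) : Finset (PV V) := L.filter fun x =>
  ∃ e, x = inl e ∧ ∃ v ∈ T.R, ∃ t w, (st v).Pass e t K w

namespace Tw

variable {T st L} (h : Tw C T st L) {v x y : PV V} {a e w m u q : V} {K : Finset V} {t : C.St}
include h

theorem col_l (hv : v ∈ T.R) (k : a ∉ C.U ∪ C.P) : T.col v (inl a) = (st v).f a := by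
  rw [(h.z v hv).2.2]; exact C.rules.col_l _ k

theorem col_r (hv : v ∈ T.R) (p : V × V) : T.col v (inr p) = (st v).port p.1 p.2 := by
  rw [(h.z v hv).2.2]; rfl

theorem z_eq (hv : inl a ∈ T.R) : (st (inl a)).z = a := (inl_injective (h.z _ hv).1).symm

theorem adj_r (hv : v ∈ T.R) (hm : m ∈ C.U) (k : G.Adj (st v).z m) :
    (PG G C.U C.P).Adj v (inr ((st v).z, m)) := by
  nth_rewrite 1 [(h.z v hv).1]
  exact ⟨rfl, (st v).one.real, hm, k⟩

theorem adj_l (hv : v ∈ T.R) (hm : m ∉ C.U ∪ C.P) (k : G.Adj (st v).z m) :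
    (PG G C.U C.P).Adj v (inl m) := by
  nth_rewrite 1 [(h.z v hv).1]
  exact (PG_real (st v).one.real hm).2 k

theorem f_par (hv : v ∈ T.R) (hr : v ≠ T.r) : (st v).f (st v).q = T.c v := by
  rw [← col_par hv hr, (h.z v hv).2.1, h.col_l hv (st v).rpar]

theorem f_base (hv : v ∈ T.R) (k : a ∉ C.U ∪ C.P) (n : inl a ∉ T.R) :
    (st v).f a = T.c (inl a) := by
  rw [← h.col_l hv k, col_base hv (fun j => k (PD_l.1 (h.dm ▸ j))) fun i => n i.mem.1]

omit h in
theorem pn_hole (hK : K ∈ C.𝒦) (s : C.St) (hm : m ∈ (C.sd K).Mv) (k : s.z ∈ (C.fr K).sl m) :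
    (s.z, m) ∈ (s.dat K).pn :=
  (s.inv K hK).hole (C.ok K hK) (s.fz hK) s.one.hole.ge hm k

/-- There is no ticket. -/
theorem notix : T.NoTix := fun y hy v hv κ l ⟨x, x1, x2, x3, x4⟩ => by
  rcases x with b | ⟨b, w⟩
  · have := C.rules.col_big (st y) (PD_l.1 (h.dm ▸ x1))
    rw [(h.z y hy).2.2] at x3; omega
  have e := (h.z v hv).1
  rw [e] at x2
  obtain ⟨rfl, _, hw, _⟩ : (st v).z = b ∧ _ := x2
  have n : (st v).z ≠ (st y).z := fun j => x4 (by rwa [e, j, ← (h.z y hy).1, ← j])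
  rw [h.col_r hy, St.port_test n] at x3
  rw [h.col_r hv] at x4
  dsimp only at x3 x4
  rcases (st y).pin_cases (st v).z w with j | ⟨_, _, j, j', _⟩
  · omega
  have hK := (C.hU w hw).1
  obtain ⟨j1, j2, _⟩ := ((st y).inv _ hK).p1 _ _ j
  exact x4 ((St.port_pn hK (pn_hole hK _ (((st y).inv _ hK).sub j1) j2)).trans (j'.symm.trans x3))

/-- A unique port is an entry. -/
theorem dr_ent (hv : v ∈ T.R) (hx : x ∈ T.Dr v) (dm : x ∈ T.Dm) :
    ∃ w ∈ C.U, x = inr ((st v).z, w) ∧ (st v).Ent (C.cq w) w := by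
  obtain ⟨⟨a1, _, a3⟩, _, l⟩ := IsB.mem_Dr.1 hx
  rcases x with b | ⟨b, w⟩
  · have := C.rules.col_big (st v) (PD_l.1 (h.dm ▸ dm))
    rw [(h.z v hv).2.2] at l; omega
  have a2 := a1
  rw [(h.z v hv).1] at a2
  obtain ⟨rfl, _, hw, _⟩ : (st v).z = b ∧ _ := a2
  rw [h.col_r hv] at l
  have k1 : ∀ m, m ∉ C.U ∪ C.P → G.Adj (st v).z m → (st v).f m ≠ (st v).port (st v).z w :=
    fun m p q => by
      have := a3 (inl m) (h.adj_l hv p q) (by simp)
      rwa [h.col_l hv p, h.col_r hv] at this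
  have k2 : ∀ m ∈ C.U, m ≠ w → G.Adj (st v).z m →
      (st v).port (st v).z m ≠ (st v).port (st v).z w := fun m p n q => by
    have := a3 _ (h.adj_r hv p q) (by simp [n])
    rwa [h.col_r hv, h.col_r hv] at this
  dsimp only at l
  rcases (st v).port_cases (st v).z w with e | ⟨_, e, _⟩
  · rcases (st v).pin_cases (st v).z w with j | ⟨_, _, j, j', _⟩
    · omega
    rw [e, j'] at k1 k2
    exact ⟨w, hw, rfl, j, k1, fun m p n => k2 m p fun i => n (i ▸ (C.hU w hw).2)⟩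
  · have := (C.ok _ ((st v).fill (K := ∅) l k1 fun m p _ i j => ?_).1).card
    · simp [frK] at this
    · exact k2 m p (fun n => by subst n; omega) i ((St.port_pin (j ▸ l)).trans j)

theorem px_spec (hx : x ∈ PC T) :
    (st (T.p x)).Pass x.fst (st x) (kx T st x).1 (kx T st x).2 := by
  obtain ⟨a, b, c⟩ := mem_filter.1 hx
  have k := h.px x a b c
  rw [kx, dif_pos k]
  exact k.choose_spec.choose_spec

theorem px_K (hx : x ∈ PX T st K) : (st (T.p x)).Pass x.fst (st x) K (kx T st x).2 :=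
  (mem_filter.1 hx).2 ▸ h.px_spec (mem_filter.1 hx).1

theorem dat_cases (hK : K ∈ C.𝒦) (hy : y ∈ T.R) : (st y).dat K = C.d0 K ∨
    ∃ x ∈ PX T st K, Fr.Stp (C.sd K) (C.d0 K) ((st y).dat K) (kx T st x).2 x.fst := by
  refine T.ind (P := fun y => (st y).dat K = C.d0 K ∨ ∃ x ∈ PX T st K,
    Fr.Stp (C.sd K) (C.d0 K) ((st y).dat K) (kx T st x).2 x.fst) (.inl (h.r.2 K hK))
    (fun y hy hr ih => ?_) y hy
  rcases h.nx y hy hr with k | k
  · rwa [k]
  · have p : y ∈ PC T := mem_filter.2 ⟨hy, hr, k.1⟩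
    by_cases e : (kx T st y).1 = K
    · exact .inr ⟨y, mem_filter.2 ⟨p, e⟩, (h.px_K (mem_filter.2 ⟨p, e⟩)).step⟩
    · rwa [(h.px_spec p).off K (Ne.symm e)]

theorem dd_le : ∑ v ∈ T.R, (T.Dr v ∩ T.Dm).card ≤ (DD T st).card := by
  rw [← card_sigma]
  refine card_le_card_of_injOn (fun p => (p.2.fst, p.2.snd))
    (fun ⟨v, x⟩ k => ?_) fun ⟨v, x⟩ k ⟨v', x'⟩ k' e => ?_
  · obtain ⟨hv, k⟩ := mem_sigma.1 (mem_coe.1 k)
    dsimp only at hv k
    obtain ⟨k1, k2⟩ := mem_inter.1 k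
    obtain ⟨w, w1, rfl, w3⟩ := h.dr_ent hv k1 k2
    have e := (h.z v hv).1
    exact mem_coe.2 (mem_filter.2 ⟨mem_univ _, w1, e ▸ hv,
      by dsimp only [PV.fst, PV.snd]; rwa [← e]⟩)
  · obtain ⟨hv, k⟩ := mem_sigma.1 (mem_coe.1 k)
    obtain ⟨hv', k'⟩ := mem_sigma.1 (mem_coe.1 k')
    dsimp only at hv k hv' k' e
    obtain ⟨w, _, rfl, _⟩ := h.dr_ent hv (mem_inter.1 k).1 (mem_inter.1 k).2
    obtain ⟨w', _, rfl, _⟩ := h.dr_ent hv' (mem_inter.1 k').1 (mem_inter.1 k').2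
    obtain ⟨e1, e2⟩ : (st v).z = (st v').z ∧ w = w' := Prod.mk.inj e
    obtain rfl : v = v' := by rw [(h.z v hv).1, e1, ← (h.z v' hv').1]
    rw [e2]

theorem pc_le : (PC T).card ≤ ∑ e ∈ T.R, (T.CX e).card :=
  le_trans (card_le_card fun x k => by
    obtain ⟨a, b, c⟩ := mem_filter.1 k
    exact mem_biUnion.2 ⟨_, T.p_mem x a b, T.mem_CX.2 ⟨T.mem_ch.2 ⟨a, b, rfl⟩, c⟩⟩)
    card_biUnion_le

theorem ll_le : ∑ K ∈ C.𝒦, (LL T st L K).card ≤ L.card := by
  rw [← card_biUnion fun K _ K' _ n => disjoint_left.2 fun x a b => ?_]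
  · exact card_le_card (biUnion_subset.2 fun K _ => filter_subset _ _)
  obtain ⟨xL, e, rfl, v, hv, t, w, p⟩ := mem_filter.1 a
  obtain ⟨_, e', j, v', hv', t', w', p'⟩ := mem_filter.1 b
  obtain rfl := inl_injective j
  have k := pn_hole p'.hK t p'.hw (p.z.symm ▸ p'.he)
  rw [p.z, p.off K' (Ne.symm n)] at k
  have r := (C.mem_sl.1 p.he).2
  exact ((st v).inv K' p'.hK).av _ _ k (by
    rw [← p'.col, h.f_base hv r (h.late _ xL), h.f_base hv' r (h.late _ xL)])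

theorem exit (hv : v ∈ T.R) (p : (st v).Pass e t K u) :
    inl e ∈ LL T st L K ∨ ∃ x ∈ PX T st K, (kx T st x).2 = u := by
  refine (h.clo v hv e t K u p).symm.imp (fun k => mem_filter.2 ⟨k, e, rfl, v, hv, t, u, p⟩)
    fun k => ?_
  have n : (e, u) ∉ (C.d0 K).pn := fun j => ((st v).inv K p.hK).av _ _ (p.root ▸ j) p.col
  have i := pn_hole p.hK (st (inl e)) p.hw ((h.z_eq k).symm ▸ p.he)
  rw [h.z_eq k] at i
  rcases h.dat_cases p.hK k with j | ⟨x, x1, x2⟩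
  exacts [absurd (j ▸ i) n, ⟨x, x1, ((x2.new _ i).resolve_left n).1.symm⟩]

theorem dd_K (hK : K ∈ C.𝒦) {n : ℕ} (hn : n = 2 ∨ n = 1 ∧ (C.sd K).S) :
    ((DD T st).filter fun p => C.cq p.2 = K).card ≤ (C.d0 K).pn.card + (PX T st K).card * n := by
  refine (card_le_card (t := (C.d0 K).pn ∪ (PX T st K).biUnion fun x =>
    (((C.fr K).sl (kx T st x).2).filter fun a => (C.sd K).S → a = x.fst).image fun a =>
      (a, (kx T st x).2)) fun p k => ?_).trans ((card_union_le _ _).trans (Nat.add_le_add_left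
    (card_biUnion_le_card_mul _ _ n fun x k => card_image_le.trans ?_) _))
  · obtain ⟨k1, c⟩ := mem_filter.1 k
    obtain ⟨_, _, k3, k4⟩ := mem_filter.1 k1
    have i := k4.pn
    rw [h.z_eq k3, c] at i
    rcases h.dat_cases hK k3 with j | ⟨x, x1, x2⟩
    · exact mem_union_left _ (j ▸ i)
    · refine mem_union.2 ((x2.new _ i).imp_right fun j => mem_biUnion.2 ⟨x, x1, mem_image.2
        ⟨p.1, mem_filter.2 ⟨?_, j.2⟩, Prod.ext rfl j.1.symm⟩⟩)
      exact j.1 ▸ (((st _).inv K hK).p1 _ _ i).2.1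
  · rcases hn with rfl | ⟨rfl, s⟩
    · exact (card_filter_le _ _).trans ((C.ok K hK).two _
        (((st x).inv K hK).subF (h.px_K k).hw))
    · exact card_le_one.2 fun a i b j => ((mem_filter.1 i).2 s).trans ((mem_filter.1 j).2 s).symm

theorem count (hK : K ∈ C.𝒦) : ((DD T st).filter fun p => C.cq p.2 = K).card ≤
    4 * (PX T st K).card + 2 * (LL T st L K).card := by
  by_cases c : ∃ v ∈ T.R, (C.d0 K).pn.card ≤ 8 ∧ ∃ M : Finset V, 4 ≤ M.card ∧
      ∀ u ∈ M, ∃ e t, (st v).Pass e t K u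
  · obtain ⟨v, hv, c1, M, c2, c3⟩ := c
    have a := h.dd_K hK (.inl rfl)
    have b := card_filter_add_card_filter_not (s := M) fun u => ∃ x ∈ PX T st K, (kx T st x).2 = u
    have b1 : (M.filter fun u => ∃ x ∈ PX T st K, (kx T st x).2 = u).card ≤ (PX T st K).card :=
      (card_le_card fun u k => mem_image.2 (mem_filter.1 k).2).trans
        (card_image_le (f := fun x => (kx T st x).2))
    have b2 : (M.filter fun u => ¬ ∃ x ∈ PX T st K, (kx T st x).2 = u).card ≤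
        (LL T st L K).card := by
      refine card_le_card_of_forall_subsingleton
        (fun u x => u ∈ (C.fr K).F ∧ x.fst ∈ (C.fr K).sl u) (fun u k => ?_)
        fun x _ u k u' k' => (C.ok K hK).dis u k.2.1 u' k'.2.1 _ k.2.2 k'.2.2
      obtain ⟨e, t, p⟩ := c3 u (mem_filter.1 k).1
      exact ⟨_, (h.exit hv p).resolve_right (mem_filter.1 k).2,
        ((st v).inv K hK).subF p.hw, p.he⟩
    omega
  have alt : ∀ v ∈ T.R, ∀ q, (st v).dat K = C.d0 K → (st v).Ent K q → (C.sd K).S ∧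
      q = (C.d0 K).h ∧ (C.d0 K).pn.card ≤ 3 ∧ ∃ u e t, (st v).Pass e t K u := fun v hv q a b =>
    (b.alt hK a).resolve_left fun j => c ⟨v, hv, j⟩
  rcases (PX T st K).eq_empty_or_nonempty with np | ⟨x, hx⟩
  · rcases ((DD T st).filter fun p => C.cq p.2 = K).eq_empty_or_nonempty with e | ⟨p, hp⟩
    · rw [e]; exact Nat.zero_le _
    have key : ∀ p ∈ (DD T st).filter fun p => C.cq p.2 = K, p.2 = (C.d0 K).h ∧
        p.1 ∈ (C.fr K).sl p.2 ∧ p.2 ∈ (C.fr K).F ∧ (LL T st L K).Nonempty := fun p k => by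
      obtain ⟨k1, c⟩ := mem_filter.1 k
      obtain ⟨_, _, k3, k4⟩ := mem_filter.1 k1
      rw [c] at k4
      obtain ⟨_, a, _, u, e, t, b⟩ := alt _ k3 _ ((h.dat_cases hK k3).resolve_right (by simp [np])) k4
      have i := ((st _).inv K hK).p1 _ _ k4.pn
      rw [h.z_eq k3] at i
      exact ⟨a, i.2.1, ((st _).inv K hK).rF i.1, _, (h.exit k3 b).resolve_right (by simp [np])⟩
    obtain ⟨a1, _, a2, a3⟩ := key p hp
    have := card_pos.2 a3
    have := (card_le_card_of_injOn (t := (C.fr K).sl (C.d0 K).h) Prod.fst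
      (fun p k => (key p k).1 ▸ (key p k).2.1) fun p k p' k' e =>
        Prod.ext e ((key p k).1.trans (key p' k').1.symm)).trans ((C.ok K hK).two _ (a1 ▸ a2))
    omega
  · have p := h.px_K hx
    obtain ⟨q, en⟩ := p.ent
    obtain ⟨a, b, _⟩ := mem_filter.1 (mem_filter.1 hx).1
    obtain ⟨s, _, c3, _⟩ := alt _ (T.p_mem x a b) q p.root en
    have := h.dd_K hK (.inr ⟨rfl, s⟩)
    have := card_pos.2 ⟨x, hx⟩
    omega

theorem total :
    ∑ v ∈ T.R, (T.Dr v ∩ T.Dm).card ≤ 4 * ∑ e ∈ T.R, (T.CX e).card + 2 * L.card := by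
  have a1 := h.dd_le
  have a2 := h.pc_le
  have a3 := h.ll_le
  have key : (DD T st).card ≤ 4 * (PC T).card + 2 * ∑ K ∈ C.𝒦, (LL T st L K).card := by
    rw [card_eq_sum_card_fiberwise (s := DD T st) (t := C.𝒦) (f := fun t => C.cq t.2)
        fun t k => (C.hU _ (mem_filter.1 (mem_coe.1 k)).2.1).1,
      card_eq_sum_card_fiberwise (s := PC T) (t := C.𝒦) (f := fun x => (kx T st x).1)
        fun x k => (h.px_spec k).hK, mul_sum, mul_sum, ← sum_add_distrib]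
    exact sum_le_sum fun K hK => h.count hK
  omega

end Tw

end Cz

end Pool.Agent.Lib.MP_12eaff_co.Frz.Acc2
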