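import Pool.Agent.Lib.MP_12eaff_co.Frz.G.Defs

set_option autoImplicit false
set_option linter.unusedSectionVars false

namespace Pool.Agent.Lib.MP_12eaff_co.Frz.Acc2

open Finset
open scoped Classical

namespace Fr

variable {V : Type} [Fintype V] {X : Fr V} {D : ℕ} {c : Sd V} {d : Dd V} {f g : V → ℕ}
  {m u z : V} {y y' k : ℕ}

theorem Nb_comm (y z : ℕ) : X.Nb f y z = X.Nb f z y := filter_congr fun _ _ => by rw [and_comm]

theorem Ns_Na (R : Finset V) (y : ℕ) : X.Ns R f y ⊆ X.Na f y := fun _ k =>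
  mem_Na.2 ⟨(mem_sdiff.1 (mem_Ns.1 k).1).1, (mem_Ns.1 k).2⟩

theorem Na_Nb (y z : ℕ) : X.Na f y ⊆ X.Nb f y z := fun _ k =>
  mem_Nb.2 ⟨(mem_Na.1 k).1, fun j => (mem_Na.1 k).2 j.1⟩

theorem Na_Nm (y : ℕ) : X.Na f y ⊆ X.Nm f y := fun _ k =>
  mem_Nm.2 ⟨(mem_Na.1 k).1, fun j => (mem_Na.1 k).2 j.see⟩

theorem _root_.Pool.Agent.Lib.MP_12eaff_co.Frz.Acc2.Sd.P.rng (h : c.P k) :
    2 ≤ k ∧ k ≤ 5 ∧ c.l ≠ 0 ∧ c.l ≠ 1 ∧ c.l ≠ 3 ∧ c.l ≠ 4 := by
  unfold Sd.P at h; omega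

theorem _root_.Pool.Agent.Lib.MP_12eaff_co.Frz.Acc2.Sd.S.ne (h : c.S) : c.l ≠ 0 := by
  unfold Sd.S at h; omega

/-- A pair seen by all members outside `R`. -/
theorem core_P (ok : X.OKz) {a b : ℕ} (ab : a ≠ b) {R : Finset V} (hR : R ⊆ X.F)
    (c5 : R.card ≤ 5) (n : ∀ m ∈ R, ¬ (X.See f m a ∧ X.See f m b))
    (s : ∀ u ∈ X.F \ R, X.See f u a ∧ X.See f u b ∨ X.Hl D f u) (hy : y < D) (hy' : y' < D)
    (ne : y ≠ y') : R.card ≤ (X.Nb f y y').card ∧
      ((X.Nb f y y').card ≤ R.card → ∀ u ∈ X.F \ R, X.See f u a ∧ X.See f u b) := by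
  have key : R.card ≤ (X.Nb f a b).card ∧
      ((X.Nb f a b).card ≤ R.card → ∀ u ∈ X.F \ R, X.See f u a ∧ X.See f u b) := by
    have sb : R ⊆ X.Nb f a b := fun m k => mem_Nb.2 ⟨hR k, n m k⟩
    refine ⟨card_le_card sb, fun l u k => by_contra fun j => (mem_sdiff.1 k).2 ?_⟩
    rw [eq_of_subset_of_card_le sb l]
    exact mem_Nb.2 ⟨(mem_sdiff.1 k).1, j⟩
  by_cases e : y = a ∧ y' = b ∨ y = b ∧ y' = a
  · rcases e with ⟨rfl, rfl⟩ | ⟨rfl, rfl⟩
    exacts [key, Nb_comm (X := X) (f := f) y' y ▸ key]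
  · have sb : X.F \ R ⊆ X.Nb f y y' := fun u k => by
      have uF := (mem_sdiff.1 k).1
      refine mem_Nb.2 ⟨uF, fun j => (s u k).elim (fun t => ?_) fun t =>
        ne (ok.hl1 uF t hy hy' j.1 j.2)⟩
      have := ok.see3 uF t.1 t.2 j.1 ab
      have := ok.see3 uF t.1 t.2 j.2 ab
      omega
    have := card_le_card sb
    have := card_sdiff_add_card_eq_card hR
    have := ok.card
    exact ⟨by omega, fun l => by omega⟩

namespace Wz

variable (h : X.Wz D c d f)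
include h

theorem cases : c.l = 0 ∨ c.S ∨ ∃ k, c.P k := by
  have := h.l7
  unfold Sd.S Sd.P
  by_cases a : c.l = 0 ∨ c.l = 1 ∨ c.l = 3 ∨ c.l = 4
  · tauto
  · refine .inr (.inr ⟨if c.l = 2 then 5 else 9 - c.l, ?_⟩)
    split_ifs <;> omega

theorem rF : d.Rt ⊆ X.F := h.sub.trans h.subF

theorem cardF : (X.F \ d.Rt).card + d.Rt.card = X.F.card := card_sdiff_add_card_eq_card h.rF

theorem l0 (k : m ∈ d.Rt) : c.l ≠ 0 := fun e => by
  have := h.sub k
  rw [h.r0 e] at this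
  exact notMem_empty _ this

theorem sg_lt (l : c.l ≠ 0) (m : V) : c.σ m < D := by
  have := h.la l
  have := h.sg m
  omega

theorem pin_lt (k : (z, m) ∈ d.pn) : c.σ m < D := h.sg_lt (h.l0 (h.p1 z m k).1) m

theorem sgS (s : c.S) (m : V) : c.σ m = c.α := by
  have := (h.S s).1
  have := h.sg m
  omega

theorem hR (s : c.S) : d.h ∈ d.Rt := by rw [(h.S s).2.1]; simp

theorem wR (s : c.S) : d.w ∈ d.Rt := by rw [(h.S s).2.1]; simp

theorem cS (s : c.S) : d.Rt.card = 2 := by rw [(h.S s).2.1, card_pair (h.S s).2.2.1]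

theorem av : ∀ z m, (z, m) ∈ d.pn → f z ≠ c.σ m := fun z m k => (h.p1 z m k).2.2

omit h in
theorem full_not (fu : X.Full d m) (av : ∀ z, (z, m) ∈ d.pn → g z ≠ c.σ m) :
    ¬ X.See g m (c.σ m) := fun ⟨z, a, b⟩ => av z (fu z a) b

theorem h_not (s : c.S) (av : ∀ z, (z, d.h) ∈ d.pn → g z ≠ c.σ d.h) : ¬ X.See g d.h c.α :=
  h.sgS s d.h ▸ full_not (h.S s).2.2.2.1 av

theorem w_not (ok : X.OKz) (s : c.S) (av : ∀ z, (z, d.w) ∈ d.pn → g z ≠ c.σ d.w) :
    ¬ X.Mono g d.w c.α := fun t => by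
  rcases (h.S s).2.2.2.2.1 with k | ⟨z, k⟩
  · obtain ⟨x, hx, y, hy, xy, -⟩ := t
    have : 1 < (X.sl d.w).card := one_lt_card.2 ⟨x, hx, y, hy, xy⟩
    omega
  · exact av z k ((ok.mono1 (h.rF (h.wR s)) t ⟨z, (h.p1 _ _ k).2.1, rfl⟩).trans (h.sgS s _).symm)

theorem rt_not (p : c.P k) (av : ∀ z m, (z, m) ∈ d.pn → g z ≠ c.σ m) (hm : m ∈ d.Rt) :
    ¬ (X.See g m c.α ∧ X.See g m c.β) := fun t => by
  have := full_not ((h.P k p).2.2.1 m hm) fun z => av z m
  rcases h.sg m with e | e <;> rw [e] at this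
  exacts [this t.1, this t.2]

theorem T_sub (p : c.P k) (av : ∀ z m, (z, m) ∈ d.pn → g z ≠ c.σ m) (κ : ℕ) :
    (d.Rt.filter fun m => c.σ m = κ) ⊆ X.Na g κ := fun m j => by
  obtain ⟨a, rfl⟩ := mem_filter.1 j
  exact mem_Na.2 ⟨h.rF a, full_not ((h.P k p).2.2.1 m a) fun z => av z m⟩

theorem na4 (l : c.l ≠ 0) (hy : y < D) (a : y ≠ c.α) (b : y ≠ c.β) : 4 ≤ (X.Na f y).card :=
  (h.soft.s1 l y hy a b).trans (card_le_card (Ns_Na _ _))

theorem naP (p : c.P k) (hy : y < D) : (if k = 5 then 2 else 1) ≤ (X.Na f y).card := by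
  by_cases e : y = c.α ∨ y = c.β
  · exact ((h.P k p).2.2.2 y e).trans (card_le_card (h.T_sub p h.av y))
  · have := h.na4 p.rng.2.2.1 hy (fun j => e (.inl j)) fun j => e (.inr j)
    split_ifs <;> omega

theorem nbP (ok : X.OKz) (p : c.P k) (hy : y < D) (hy' : y' < D) (ne : y ≠ y') :
    k ≤ (X.Nb f y y').card ∧
      ((X.Nb f y y').card ≤ k → ∀ u ∈ X.F \ d.Rt, X.See f u c.α ∧ X.See f u c.β) := by
  obtain ⟨a, b, -⟩ := h.P k p
  exact b ▸ core_P ok a h.rF (b ▸ p.rng.2.1) (fun m => h.rt_not p h.av) (h.see p.rng.2.2.1)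
    hy hy' ne

theorem pairS (s : c.S) (l : c.l = 1) : d.Rt ⊆ X.Na f c.α := by
  rw [(h.S s).2.1]
  refine insert_subset (mem_Na.2 ⟨h.rF (h.hR s), h.h_not s fun z => h.av z _⟩)
    (singleton_subset_iff.2 (mem_Na.2 ⟨h.rF (h.wR s), ?_⟩))
  exact h.sgS s d.w ▸ full_not ((h.S s).2.2.2.2.2 l) fun z => h.av z _

theorem nbS (ok : X.OKz) (s : c.S) (hy : y < D) (hy' : y' < D) (ne : y ≠ y') :
    5 ≤ (X.Nb f y y').card ∧ (c.l = 1 → 6 ≤ (X.Nb f y y').card) := by
  have key : ∀ y < D, y ≠ c.α → 5 ≤ (X.Nb f y c.α).card ∧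
      (c.l = 1 → 6 ≤ (X.Nb f y c.α).card) := fun y l n => by
    have a := h.soft.s1 s.ne y l n ((h.S s).1 ▸ n)
    have gen : ∀ R ⊆ d.Rt, R ⊆ X.Na f c.α → R.card + 4 ≤ (X.Nb f y c.α).card := fun R r1 r2 => by
      have dj : Disjoint R (X.Ns d.Rt f y) := disjoint_left.2 fun m p q =>
        (mem_sdiff.1 (mem_Ns.1 q).1).2 (r1 p)
      have := card_le_card (union_subset (r2.trans (Nb_comm (X := X) (f := f) c.α y ▸ Na_Nb _ _))
        ((Ns_Na d.Rt y).trans (Na_Nb y c.α)))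
      rw [card_union_of_disjoint dj] at this
      omega
    refine ⟨gen {d.h} (singleton_subset_iff.2 (h.hR s)) (singleton_subset_iff.2
      (mem_Na.2 ⟨h.rF (h.hR s), h.h_not s fun z => h.av z _⟩)), fun l1 => ?_⟩
    have := gen _ Subset.rfl (h.pairS s l1)
    rwa [h.cS s] at this
  by_cases e : y' = c.α
  · exact e ▸ key y hy (e ▸ ne)
  by_cases e' : y = c.α
  · exact Nb_comm (X := X) (f := f) y' y ▸ e' ▸ key y' hy' e
  have sb : X.F \ d.Rt ⊆ X.Nb f y y' := fun u k => by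
    have uF := (mem_sdiff.1 k).1
    refine mem_Nb.2 ⟨uF, fun j => (h.see s.ne u k).elim (fun t => ?_) fun t =>
      ne (ok.hl1 uF t hy hy' j.1 j.2)⟩
    have := ok.see3 uF j.1 j.2 t.1 ne
    omega
  have := card_le_card sb
  have := h.cardF
  have := h.cS s
  have := ok.card
  exact ⟨by omega, fun _ => by omega⟩

theorem colS (s : c.S) (hy : y < D) (l : (X.Na f y).card ≤ 3) : y = c.α := by_contra fun n => by
  have := h.na4 s.ne hy n ((h.S s).1 ▸ n)
  omega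

theorem rt_Nm (ok : X.OKz) (s : c.S) (av : ∀ z m, (z, m) ∈ d.pn → g z ≠ c.σ m) :
    d.Rt ⊆ X.Nm g c.α := by
  rw [(h.S s).2.1]
  exact insert_subset (mem_Nm.2 ⟨h.rF (h.hR s), fun t => h.h_not s (fun z => av z _) t.see⟩)
    (singleton_subset_iff.2 (mem_Nm.2 ⟨h.rF (h.wR s), h.w_not ok s fun z => av z _⟩))

/-- The level does not rise. -/
theorem low (ok : X.OKz) : ¬ X.Gl D f (c.l + 1) := by
  rcases h.cases with l | s | ⟨k, p⟩
  · exact l ▸ h.soft.s0 l
  · have n4 : ¬ X.GN D f 4 := fun ⟨y, a, y', b, n, t⟩ => by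
      have := (h.nbS ok s a b n).1; omega
    rcases id s with l | l | l <;> rw [l]
    · rintro (⟨y, a, y', b, n, t⟩ | ⟨y, a, t⟩)
      · have := (h.nbS ok s a b n).2 l; omega
      · obtain rfl := h.colS s a (by omega)
        have := card_le_card (h.pairS s l)
        have := h.cS s
        omega
    · rintro (⟨y, a, t, t'⟩ | t)
      · obtain rfl := h.colS s a (by omega)
        obtain ⟨u, u1, u2⟩ := h.soft.s2 l
        have := card_le_card (insert_subset (mem_Nm.2 ⟨(mem_sdiff.1 u1).1, u2⟩) (h.rt_Nm ok s h.av))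
        rw [card_insert_of_notMem (mem_sdiff.1 u1).2, h.cS s] at this
        omega
      · exact n4 t
    · exact n4
  · have nk : ∀ j < k, ¬ X.GN D f j := fun j l ⟨y, a, y', b, n, t⟩ => by
      have := (h.nbP ok p a b n).1; omega
    rcases id p with ⟨l, e⟩ | ⟨l, e⟩ | ⟨l, e⟩ | ⟨l, e⟩ <;> rw [l]
    · rintro (⟨y, a, t⟩ | t)
      · have := h.naP p a
        rw [if_pos e] at this; omega
      · exact nk 4 (by omega) t
    exacts [nk 3 (by omega), nk 2 (by omega), id]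

/-- At the full level everything is frozen. -/
theorem fz (ok : X.OKz) (t : X.Gl D f c.l) : X.Fz c d f := by
  rcases h.cases with l | s | ⟨k, p⟩
  · exact ⟨fun j => absurd l j, fun j => by omega, fun j => by omega⟩
  · have n4 : ¬ X.GN D f 4 := fun ⟨y, a, y', b, n, t⟩ => by
      have := (h.nbS ok s a b n).1; omega
    have e := (h.S s).1
    have one : (X.Na f c.α).card ≤ 1 → ∀ u ∈ X.F, u ≠ d.h → X.See f u c.α := fun l u a b =>
      by_contra fun j => b (card_le_one.1 l _ (mem_Na.2 ⟨a, j⟩) _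
        (mem_Na.2 ⟨h.rF (h.hR s), h.h_not s fun z => h.av z _⟩))
    have fin : (X.Na f c.α).card ≤ 1 →
        (c.l = 4 → ∀ u ∈ X.F \ d.Rt, X.Mono f u c.α) → X.Fz c d f := fun l mo =>
      ⟨fun _ u k => by
        rw [e, and_self]
        exact one l u (mem_sdiff.1 k).1 fun j => (mem_sdiff.1 k).2 (j ▸ h.hR s),
        fun _ => one l _ (h.rF (h.wR s)) (h.S s).2.2.1.symm, mo⟩
    rcases id s with l | l | l <;> rw [l] at t
    · rcases t with ⟨y, a, t⟩ | ⟨y, a, y', b, n, t⟩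
      · obtain rfl := h.colS s a (by omega)
        refine ⟨fun _ u k => ?_, fun j => by omega, fun j => by omega⟩
        rw [e, and_self]
        refine by_contra fun j => (mem_sdiff.1 k).2 ?_
        rw [eq_of_subset_of_card_le (h.pairS s l) (h.cS s ▸ t)]
        exact mem_Na.2 ⟨(mem_sdiff.1 k).1, j⟩
      · have := (h.nbS ok s a b n).2 l; omega
    · obtain ⟨y, a, t⟩ := t.resolve_right n4
      obtain rfl := h.colS s a (by omega)
      exact fin t fun j => by omega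
    · obtain ⟨y, a, t, t'⟩ := t.resolve_right n4
      obtain rfl := h.colS s a (by omega)
      refine fin t fun _ u k => by_contra fun j => (mem_sdiff.1 k).2 ?_
      rw [eq_of_subset_of_card_le (h.rt_Nm ok s h.av) (h.cS s ▸ t')]
      exact mem_Nm.2 ⟨(mem_sdiff.1 k).1, j⟩
  · have r := p.rng
    have fin : X.GN D f k → X.Fz c d f := fun ⟨y, a, y', b, n, t⟩ =>
      ⟨fun _ => (h.nbP ok p a b n).2 t, fun j => by omega, fun j => by omega⟩
    rcases id p with ⟨l, e⟩ | ⟨l, e⟩ | ⟨l, e⟩ | ⟨l, e⟩ <;> rw [l] at t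
    · refine fin (e ▸ t.resolve_right fun ⟨y, a, t⟩ => ?_)
      have := h.naP p a
      rw [if_pos e] at this; omega
    all_goals exact fin (e ▸ t)

/-- A colouring that avoids the pins and gains every colour at most twice is valid. -/
theorem locV (ok : X.OKz) (av : ∀ z m, (z, m) ∈ d.pn → g z ≠ c.σ m)
    (gn : ∀ κ < D, ((X.F.biUnion X.sl).filter fun z => g z = κ ∧ f z ≠ κ).card ≤ 2) :
    X.Vz D g := by
  obtain ⟨N, cN, hN⟩ : ∃ N : ℕ → Finset V, (∀ κ < D, (N κ).card ≤ 2) ∧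
      ∀ κ, ∀ w ∈ X.F, w ∉ N κ → ∀ z ∈ X.sl w, g z = κ → f z = κ := by
    refine ⟨fun κ => X.F.filter fun w => ∃ z ∈ X.sl w, g z = κ ∧ f z ≠ κ, fun κ hκ => ?_,
      fun κ w hw n z hz e => ?_⟩
    · refine le_trans (card_le_card_of_forall_subsingleton (fun w z => z ∈ X.sl w) ?_ ?_) (gn κ hκ)
      · intro w hw
        obtain ⟨hw, z, hz, e⟩ := mem_filter.1 hw
        exact ⟨z, mem_filter.2 ⟨mem_biUnion.2 ⟨w, hw, hz⟩, e⟩, hz⟩
      · intro z _ w hw w' hw'
        exact ok.dis w (mem_filter.1 hw.1).1 w' (mem_filter.1 hw'.1).1 z hw.2 hw'.2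
    · by_contra k
      exact n (mem_filter.2 ⟨hw, z, hz, e, k⟩)
  have sN : ∀ κ, ∀ w ∈ X.F, w ∉ N κ → X.See g w κ → X.See f w κ :=
    fun κ w hw n ⟨z, hz, e⟩ => ⟨z, hz, hN κ w hw n z hz e⟩
  have mN : ∀ κ, ∀ w ∈ X.F, w ∉ N κ → X.Mono g w κ → X.Mono f w κ :=
    fun κ w hw n ⟨z, hz, z', hz', zz, e, e'⟩ =>
      ⟨z, hz, z', hz', zz, hN κ w hw n z hz e, hN κ w hw n z' hz' e'⟩
  have na : ∀ y < D, (X.Na f y).card ≤ (X.Na g y).card + 2 := fun y l => by
    have a := card_le_card (s := X.Na f y \ N y) (t := X.Na g y) fun w k => by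
      obtain ⟨k1, k2⟩ := mem_sdiff.1 k
      exact mem_Na.2 ⟨(mem_Na.1 k1).1, fun t => (mem_Na.1 k1).2 (sN y w (mem_Na.1 k1).1 k2 t)⟩
    have := le_card_sdiff (N y) (X.Na f y)
    have := cN y l
    omega
  by_cases l : c.l = 0
  · have s := h.soft.s0 l
    have a3 : ∀ y < D, 3 ≤ (X.Na f y).card := fun y a => by_contra fun j =>
      s (.inl ⟨y, a, by omega⟩)
    refine ⟨fun y a => ?_, fun y a y' b n => ?_, fun y a => ?_⟩
    · have := a3 y a; have := na y a; omega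
    · have : 6 ≤ (X.Nb f y y').card := by_contra fun j => s (.inr ⟨y, a, y', b, n, by omega⟩)
      have := card_le_card (s := X.Nb f y y' \ (N y ∪ N y')) (t := X.Nb g y y') fun w k => by
        obtain ⟨k1, k2⟩ := mem_sdiff.1 k
        obtain ⟨k3, k4⟩ := mem_Nb.1 k1
        rw [mem_union, not_or] at k2
        exact mem_Nb.2 ⟨k3, fun t => k4 ⟨sN y w k3 k2.1 t.1, sN y' w k3 k2.2 t.2⟩⟩
      have := le_card_sdiff (N y ∪ N y') (X.Nb f y y')
      have := card_union_le (N y) (N y')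
      have := cN y a
      have := cN y' b
      omega
    · have m1 : ((X.Na f y).filter fun w => X.Mono g w y).card ≤ 1 := by
        refine card_le_one.2 fun u p v q => ?_
        obtain ⟨p1, x, x1, x', x2, xx, x3, x4⟩ := mem_filter.1 p
        obtain ⟨q1, t, t1, _, _, _, t3, _⟩ := mem_filter.1 q
        have i : ∀ w ∈ X.Na f y, ∀ z ∈ X.sl w, g z = y →
            z ∈ (X.F.biUnion X.sl).filter fun z => g z = y ∧ f z ≠ y := fun w j z r e =>
          mem_filter.2 ⟨mem_biUnion.2 ⟨w, (mem_Na.1 j).1, r⟩, e, fun e' =>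
            (mem_Na.1 j).2 ⟨z, r, e'⟩⟩
        rcases L1.three (gn y a) (i u p1 x x1 x3) (i u p1 x' x2 x4) (i v q1 t t1 t3) with e | e | e
        exacts [absurd e xx, ok.dis u (mem_Na.1 p1).1 v (mem_Na.1 q1).1 x x1 (e ▸ t1),
          ok.dis u (mem_Na.1 p1).1 v (mem_Na.1 q1).1 x' x2 (e ▸ t1)]
      have := card_filter_add_card_filter_not (s := X.Na f y) fun w => X.Mono g w y
      have := card_le_card (s := (X.Na f y).filter fun w => ¬ X.Mono g w y) (t := X.Nm g y)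
        fun w k => mem_Nm.2 ⟨(mem_Na.1 (mem_filter.1 k).1).1, (mem_filter.1 k).2⟩
      have := a3 y a
      omega
  have o2 : ∀ y < D, ¬ (y = c.α ∨ y = c.β) → 2 ≤ (X.Na g y).card := fun y a n => by
    have := h.na4 l a (fun j => n (.inl j)) fun j => n (.inr j)
    have := na y a
    omega
  refine ⟨fun y a => ?_, fun y a y' b n => ?_, fun y a => ?_⟩
  · by_cases e : y = c.α ∨ y = c.β
    · rcases h.cases.resolve_left l with s | ⟨k, p⟩
      · obtain rfl : y = c.α := by have := (h.S s).1; omega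
        exact card_pos.2 ⟨_, mem_Na.2 ⟨h.rF (h.hR s), h.h_not s fun z => av z _⟩⟩
      · have := ((h.P k p).2.2.2 y e).trans (card_le_card (h.T_sub p av y))
        split_ifs at this <;> omega
    · exact one_le_two.trans (o2 y a e)
  · by_cases e : y = c.α ∨ y = c.β
    swap
    · exact (o2 y a e).trans (card_le_card (Na_Nb _ _))
    by_cases e' : y' = c.α ∨ y' = c.β
    swap
    · exact (o2 y' b e').trans (card_le_card (Nb_comm (X := X) (f := g) y' y ▸ Na_Nb _ _))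
    rcases h.cases.resolve_left l with s | ⟨k, p⟩
    · have := (h.S s).1; omega
    · refine p.rng.1.trans ((h.P k p).2.1 ▸ card_le_card fun m j => mem_Nb.2 ⟨h.rF j, fun t =>
        h.rt_not p av j ?_⟩)
      rcases e with rfl | rfl <;> rcases e' with rfl | rfl
      exacts [absurd rfl n, t, t.symm, absurd rfl n]
  · by_cases e : y = c.α ∨ y = c.β
    swap
    · exact (o2 y a e).trans (card_le_card (Na_Nm _))
    rcases h.cases.resolve_left l with s | ⟨k, p⟩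
    · obtain rfl : y = c.α := by have := (h.S s).1; omega
      exact h.cS s ▸ card_le_card (h.rt_Nm ok s av)
    · have := card_le_card (s := (X.F \ d.Rt) \ N y) (t := X.Nm g y) fun w j => by
        obtain ⟨k1, k2⟩ := mem_sdiff.1 j
        have wF := (mem_sdiff.1 k1).1
        refine mem_Nm.2 ⟨wF, fun t => (h.see l w k1).elim (fun r => (h.P k p).1 ?_) fun r =>
          ok.hl_mono wF r a (mN y w wF k2 t)⟩
        exact (ok.mono1 wF (mN y w wF k2 t) r.1).trans (ok.mono1 wF (mN y w wF k2 t) r.2).symm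
      have := le_card_sdiff (N y) (X.F \ d.Rt)
      have := cN y a
      have := h.cardF
      have := (h.P k p).2.1
      have := p.rng
      have := ok.card
      omega

theorem val (ok : X.OKz) : X.Vz D f :=
  h.locV ok h.av fun κ _ => by
    rw [filter_false_of_mem fun z _ t => t.2 t.1]; simp

end Wz

end Fr

end Pool.Agent.Lib.MP_12eaff_co.Frz.Acc2
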